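import Pool.Agent.Q187.SC.Main

/-! Sections without fixed elements, and closed points of bounded degree. -/

namespace Pool.Agent.Q187.SC

universe u

variable {G : Type u} [Group G] [TopologicalSpace G]

open MulAction

/-- The group `F(s)` of the elements of the geometric fundamental group `ker (P → G)` which commute
with `s(N)`; `N` stands for the kernel of the cyclotomic character. -/
def fixedElements (C : Curve G) (N : Subgroup G) (σ : Sec C) : Subgroup C.P :=
  C.pr.ker ⊓ Subgroup.centralizer (σ.s '' (N : Set G))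

/-- `σ` comes from a rational point, that is, from a point `x` which is not a cusp. -/
def FromRational (C : Curve G) (cusps : Set C.X) (σ : Sec C) : Prop :=
  ∃ x : C.X, x ∉ cusps ∧ ∀ g, σ.s g ∈ stabilizer C.P x

/-- Known: for a cuspidal section, `F(s)` contains the inertia group `Z^(1)` of the cusp and is not
trivial. -/
def CuspFact (K : Curve G → Prop) (N : Subgroup G) (cusps : ∀ C : Curve G, Set C.X) : Prop :=
  ∀ C, K C → ∀ σ : Sec C, ∀ x ∈ cusps C, (∀ g, σ.s g ∈ stabilizer C.P x) →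
    fixedElements C N σ ≠ ⊥

variable [IsTopologicalGroup G] [CompactSpace G] [T2Space G]

omit [TopologicalSpace G] [IsTopologicalGroup G] [CompactSpace G] [T2Space G] in
theorem hasPoint_of_mem {C : Curve G} [TopologicalSpace G] {σ : Sec C} {x : C.X}
    (hx : ∀ g, σ.s g ∈ stabilizer C.P x) {d : ℕ} (hd : 1 ≤ d) : HasPoint C d := by
  refine ⟨x, ?_⟩
  have : Subgroup.map C.pr (stabilizer C.P x ⊓ ⊤) = ⊤ := by
    rw [eq_top_iff]
    intro g _
    exact ⟨σ.s g, ⟨hx g, trivial⟩, σ.right g⟩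
  rw [deg, this, Subgroup.index_top]
  exact hd

omit [IsTopologicalGroup G] [CompactSpace G] [T2Space G] in
theorem sec_cover_fixed (C : Curve G) {N : Subgroup G} {σ : Sec C}
    (h1 : fixedElements C N σ = ⊥) {H : Subgroup C.P} (hH : IsNbhd C σ H) :
    ∃ σ' : Sec (cover C H), fixedElements (cover C H) N σ' = ⊥ := by
  refine ⟨{ s := σ.s.codRestrict H hH.2
            cont := Continuous.subtype_mk σ.cont _
            right := σ.right }, ?_⟩
  rw [eq_bot_iff]
  intro p hp
  have hp' := Subgroup.mem_inf.1 hp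
  have hp1 : C.pr p.1 = 1 := hp'.1
  have hp2 := Subgroup.mem_centralizer_iff.1 hp'.2
  have h2 : p.1 ∈ fixedElements C N σ := by
    refine Subgroup.mem_inf.2 ⟨hp1, ?_⟩
    rw [Subgroup.mem_centralizer_iff]
    rintro _ ⟨g, hg, rfl⟩
    exact congrArg Subtype.val (hp2 _ ⟨g, hg, rfl⟩)
  rw [h1, Subgroup.mem_bot] at h2
  rw [Subgroup.mem_bot]
  exact Subtype.ext h2

theorem main_fixed {K K' : Curve G → Prop} (hK : IsHyperbolicClass K) (hK' : IsCofinal K K')
    {N : Subgroup G} {cusps : ∀ C : Curve G, Set C.X} (hc : CuspFact K N cusps) :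
    (∀ C, K C → ∀ σ : Sec C, fixedElements C N σ = ⊥ →
      (FromRational C (cusps C) σ ↔ ∃ d, Bounded C σ d)) ∧
    ∀ d, 1 ≤ d →
      ((∀ C, K C → ∀ σ : Sec C, fixedElements C N σ = ⊥ → FromRational C (cusps C) σ) ↔
        ∀ C, K' C → (∃ σ : Sec C, fixedElements C N σ = ⊥) → HasPoint C d) := by
  have key : ∀ C, K C → ∀ σ : Sec C, fixedElements C N σ = ⊥ →
      (FromRational C (cusps C) σ ↔ ∃ d, Bounded C σ d) := by
    intro C hC σ h1
    have h2 := criterion (hK.isCurve C hC) (hK.separated C hC) (hK.few C hC) σ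
    constructor
    · rintro ⟨x, -, hx⟩
      exact h2.1 ⟨x, hx⟩
    · intro h
      obtain ⟨x, hx⟩ := h2.2 h
      exact ⟨x, fun hxc => hc C hC σ x hxc hx h1, hx⟩
  refine ⟨key, fun d hd => ⟨?_, ?_⟩⟩
  · rintro h C hC ⟨σ, h1⟩
    obtain ⟨x, -, hx⟩ := h C (hK'.1 C hC) σ h1
    exact hasPoint_of_mem hx hd
  · intro h C hC σ h1
    refine (key C hC σ h1).2 ⟨d, fun H hH => ?_⟩
    obtain ⟨H', hle, hH', hKH⟩ := hK'.2 C hC σ H hH
    obtain ⟨x, hx⟩ := h _ hKH (sec_cover_fixed C h1 hH')
    have hx' : deg C H' x ≤ d := by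
      rw [← deg_cover C H' x]
      exact hx
    exact ⟨x, (deg_mono (hK.isCurve C hC) hH'.1 hle x).trans hx'⟩

end Pool.Agent.Q187.SC
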