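import Pool.Agent.Q187.SC.Stmt

/-! Sections of fundamental groups of curves and closed points of bounded degree: proofs. -/

namespace Pool.Agent.Q187.SC

universe u

variable {G : Type u} [Group G] [TopologicalSpace G] [IsTopologicalGroup G] [CompactSpace G]
  [T2Space G]

open MulAction

section
variable {C : Curve G} (hC : IsCurve C)
include hC

theorem fin_deg {H : Subgroup C.P} (hH : IsOpen (H : Set C.P)) (x : C.X) :
    (Subgroup.map C.pr (stabilizer C.P x ⊓ H)).index ≠ 0 := by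
  have := hC.topGroup
  have := hC.compact
  have hf : Finite (C.P ⧸ H) := Subgroup.quotient_finite_of_isOpen H hH
  have h1 : H.index ≠ 0 := Subgroup.index_ne_zero_of_finite
  have h2 : (stabilizer C.P x ⊓ H).relIndex (stabilizer C.P x) ≠ 0 := by
    rw [inf_comm, Subgroup.inf_relIndex_right]
    intro h0
    apply h1
    rw [← Subgroup.relIndex_top_right]
    exact Subgroup.relIndex_eq_zero_of_le_right le_top h0
  have h3 : (Subgroup.map C.pr (stabilizer C.P x ⊓ H)).relIndex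
      (Subgroup.map C.pr (stabilizer C.P x)) ≠ 0 := by
    rw [← Subgroup.relIndex_comap]
    intro h0
    apply h2
    have hle : stabilizer C.P x ⊓ H ≤
        Subgroup.comap C.pr (Subgroup.map C.pr (stabilizer C.P x ⊓ H)) := Subgroup.le_comap_map _ _
    exact Subgroup.relIndex_eq_zero_of_le_left hle h0
  rw [← Subgroup.relIndex_mul_index (Subgroup.map_mono inf_le_left)]
  exact mul_ne_zero h3 (hC.residue x).index_ne_zero

theorem deg_mono {H H' : Subgroup C.P} (hH' : IsOpen (H' : Set C.P)) (h : H' ≤ H) (x : C.X) :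
    deg C H x ≤ deg C H' x := by
  have : (Subgroup.map C.pr (stabilizer C.P x ⊓ H')).FiniteIndex := ⟨fin_deg hC hH' x⟩
  exact Subgroup.index_antitone (Subgroup.map_mono (inf_le_inf_left _ h))

omit [TopologicalSpace G] [IsTopologicalGroup G] [CompactSpace G] [T2Space G] hC in
theorem deg_smul (H : Subgroup C.P) (h : C.P) (hh : h ∈ H) (x : C.X) :
    deg C H (h • x) = deg C H x := by
  have e : stabilizer C.P (h • x) ⊓ H =
      (stabilizer C.P x ⊓ H).map (MulAut.conj h).toMonoidHom := by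
    ext p
    rw [Subgroup.mem_inf, stabilizer_smul_eq_stabilizer_map_conj]
    rw [Subgroup.mem_map, Subgroup.mem_map]
    constructor
    · rintro ⟨⟨q, hq, rfl⟩, hp⟩
      refine ⟨q, ⟨hq, ?_⟩, rfl⟩
      have : q = h⁻¹ * ((MulAut.conj h).toMonoidHom q) * h := by simp [mul_assoc]
      rw [this]
      exact H.mul_mem (H.mul_mem (H.inv_mem hh) hp) hh
    · rintro ⟨q, ⟨hq, hq'⟩, rfl⟩
      refine ⟨⟨q, hq, rfl⟩, ?_⟩
      change h * q * h⁻¹ ∈ H
      exact H.mul_mem (H.mul_mem hh hq') (H.inv_mem hh)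
  have e2 : Subgroup.map C.pr (stabilizer C.P (h • x) ⊓ H) =
      (Subgroup.map C.pr (stabilizer C.P x ⊓ H)).map
        (MulAut.conj (C.pr h)).toMonoidHom := by
    rw [e, Subgroup.map_map, Subgroup.map_map]
    congr 1
    ext p
    simp
  rw [deg, deg, e2]
  exact Subgroup.index_map_of_bijective (MulAut.conj (C.pr h)).bijective _

/-- a set stable under an open subgroup is closed -/
theorem closed_of_stable {H : Subgroup C.P} (hH : IsOpen (H : Set C.P)) {S : Set C.P}
    (hS : ∀ h ∈ H, ∀ g ∈ S, h * g ∈ S) : IsClosed S := by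
  have := hC.topGroup
  rw [← isOpen_compl_iff, isOpen_iff_mem_nhds]
  intro g hg
  have h1 : IsOpen ((fun y => y * g⁻¹) ⁻¹' (H : Set C.P)) :=
    hH.preimage (continuous_mul_const g⁻¹)
  refine Filter.mem_of_superset (h1.mem_nhds (by simp [H.one_mem])) ?_
  intro y hy hyS
  apply hg
  have h2 : (y * g⁻¹)⁻¹ ∈ H := H.inv_mem hy
  have := hS _ h2 y hyS
  simpa [mul_assoc] using this

theorem nbhd_inf {σ : Sec C} {H H' : Subgroup C.P} (h : IsNbhd C σ H) (h' : IsNbhd C σ H') :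
    IsNbhd C σ (H ⊓ H') :=
  ⟨h.1.inter h'.1, fun g => ⟨h.2 g, h'.2 g⟩⟩

/-- one point of degree at most `d` in all neighbourhoods -/
theorem exists_point {σ : Sec C} {d : ℕ} (hb : Bounded C σ d) (hf : FewPoints C) :
    ∃ x : C.X, ∀ H, IsNbhd C σ H → deg C H x ≤ d := by
  have := hC.topGroup
  have := hC.compact
  have := hC.hausdorff
  obtain ⟨H₀, hH₀, hfin⟩ := hf σ d
  -- pigeonhole
  obtain ⟨x₀, hx₀⟩ : ∃ x₀ : C.X, ∀ H, IsNbhd C σ H → ∃ g : C.P, deg C H (g • x₀) ≤ d := by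
    by_contra hcon
    push Not at hcon
    choose F hF1 hF2 using hcon
    set T := {O : Set C.X | ∃ x, O = MulAction.orbit H₀ x ∧ deg C H₀ x ≤ d} with hT
    have hTf : Finite T := hfin.to_subtype
    have hrep : ∀ O : T, ∃ x, O.1 = MulAction.orbit H₀ x := fun O => by
      obtain ⟨x, hx, -⟩ := O.2
      exact ⟨x, hx⟩
    choose rep hrep using hrep
    have := Fintype.ofFinite T
    obtain ⟨H, hHn, hHle, hHO⟩ : ∃ H, IsNbhd C σ H ∧ H ≤ H₀ ∧ ∀ O : T, H ≤ F (rep O) := by
      have key : ∀ A : Finset T, ∃ H, IsNbhd C σ H ∧ H ≤ H₀ ∧ ∀ O ∈ A, H ≤ F (rep O) := by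
        intro A
        classical
        induction A using Finset.induction_on with
        | empty => exact ⟨H₀, hH₀, le_rfl, by simp⟩
        | insert O A _ ih =>
          obtain ⟨H, h1, h2, h3⟩ := ih
          refine ⟨H ⊓ F (rep O), nbhd_inf hC h1 (hF1 _), inf_le_left.trans h2, fun O' hO' => ?_⟩
          rcases Finset.mem_insert.1 hO' with rfl | hO'
          · exact inf_le_right
          · exact inf_le_left.trans (h3 O' hO')
      obtain ⟨H, h1, h2, h3⟩ := key Finset.univ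
      exact ⟨H, h1, h2, fun O => h3 O (Finset.mem_univ _)⟩
    obtain ⟨x, hx⟩ := hb H hHn
    have hx0 : deg C H₀ x ≤ d := (deg_mono hC hHn.1 hHle x).trans hx
    have hO : MulAction.orbit H₀ x ∈ T := ⟨x, rfl, hx0⟩
    have h1 : x ∈ MulAction.orbit H₀ (rep ⟨_, hO⟩) := by
      rw [← hrep ⟨_, hO⟩]
      exact MulAction.mem_orbit_self x
    obtain ⟨h, hh⟩ := h1
    have h2 := hF2 (rep ⟨_, hO⟩) (h : C.P)
    have h3 : ((h : C.P) • rep ⟨_, hO⟩ : C.X) = x := hh
    rw [h3] at h2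
    exact absurd ((deg_mono hC hHn.1 (hHO ⟨_, hO⟩) x).trans hx) (not_le.2 h2)
  -- compactness
  let B : {H : Subgroup C.P // IsNbhd C σ H} → Set C.P := fun H => {g | deg C H.1 (g • x₀) ≤ d}
  have hcl : ∀ i, IsClosed (B i) := by
    intro i
    refine closed_of_stable hC i.2.1 fun h hh g hg => ?_
    change deg C i.1 ((h * g) • x₀) ≤ d
    rw [mul_smul, deg_smul _ _ hh]
    exact hg
  have hdir : Directed (· ⊇ ·) B := by
    intro i j
    refine ⟨⟨i.1 ⊓ j.1, nbhd_inf hC i.2 j.2⟩, fun g hg => ?_, fun g hg => ?_⟩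
    · exact (deg_mono hC (nbhd_inf hC i.2 j.2).1 inf_le_left _).trans hg
    · exact (deg_mono hC (nbhd_inf hC i.2 j.2).1 inf_le_right _).trans hg
  have : Nonempty {H : Subgroup C.P // IsNbhd C σ H} := ⟨⟨H₀, hH₀⟩⟩
  obtain ⟨g, hg⟩ := IsCompact.nonempty_iInter_of_directed_nonempty_isCompact_isClosed B hdir
    (fun i => hx₀ i.1 i.2) (fun i => (hcl i).isCompact) hcl
  exact ⟨g • x₀, fun H hH => Set.mem_iInter.1 hg ⟨H, hH⟩⟩

theorem mem_range {σ : Sec C} {p : C.P} (hp : ∀ H, IsNbhd C σ H → p ∈ H) : ∃ g, σ.s g = p := by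
  have := hC.topGroup
  have := hC.compact
  have := hC.hausdorff
  have := hC.disconnected
  have hc : IsClosed (σ.s.range : Set C.P) := by
    have : IsCompact (Set.range σ.s) := isCompact_range σ.cont
    simpa using this.isClosed
  have h1 := ProfiniteGrp.closedSubgroup_eq_sInf_open (G := C.P) ⟨σ.s.range, hc⟩
  have h2 : p ∈ σ.s.range := by
    have h3 : p ∈ sInf {N : Subgroup C.P | IsOpen (N : Set C.P) ∧
        ((⟨σ.s.range, hc⟩ : ClosedSubgroup C.P) : Subgroup C.P) ≤ N} := by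
      rw [Subgroup.mem_sInf]
      rintro N ⟨hN1, hN2⟩
      exact hp N ⟨hN1, fun g => hN2 ⟨g, rfl⟩⟩
    rw [← h1] at h3
    exact h3
  exact h2

/-- a point of bounded degree in all neighbourhoods gives the section over a finite extension -/
theorem open_part {σ : Sec C} {d : ℕ} {x : C.X} (hx : ∀ H, IsNbhd C σ H → deg C H x ≤ d) :
    ∃ N : Subgroup G, IsOpen (N : Set G) ∧ ∀ g ∈ N, σ.s g ∈ stabilizer C.P x := by
  have := hC.topGroup
  have := hC.compact
  have := hC.hausdorff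
  have htop : IsNbhd C σ ⊤ := ⟨isOpen_univ, fun _ => trivial⟩
  -- a neighbourhood with maximal degree
  obtain ⟨H₁, hH₁, hmax⟩ : ∃ H₁, IsNbhd C σ H₁ ∧ ∀ H, IsNbhd C σ H → deg C H x ≤ deg C H₁ x := by
    by_contra hcon
    push Not at hcon
    have key : ∀ n : ℕ, ∃ H, IsNbhd C σ H ∧ n ≤ deg C H x := by
      intro n
      induction n with
      | zero => exact ⟨⊤, htop, Nat.zero_le _⟩
      | succ n ih =>
        obtain ⟨H, h1, h2⟩ := ih
        obtain ⟨H', h3, h4⟩ := hcon H h1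
        exact ⟨H', h3, by omega⟩
    obtain ⟨H, h1, h2⟩ := key (d + 1)
    have := hx H h1
    omega
  set N := Subgroup.map C.pr (stabilizer C.P x ⊓ H₁) with hN
  have hN0 : N.index ≠ 0 := fin_deg hC hH₁.1 x
  have hNH : ∀ H, IsNbhd C σ H → H ≤ H₁ → N ≤ Subgroup.map C.pr (stabilizer C.P x ⊓ H) := by
    intro H hH hle
    have h1 : Subgroup.map C.pr (stabilizer C.P x ⊓ H) ≤ N :=
      Subgroup.map_mono (inf_le_inf_left _ hle)
    have h2 := Subgroup.relIndex_mul_index h1
    have h3 : (Subgroup.map C.pr (stabilizer C.P x ⊓ H)).index ≤ N.index := hmax H hH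
    have h4 : (Subgroup.map C.pr (stabilizer C.P x ⊓ H)).index ≠ 0 := fin_deg hC hH.1 x
    rw [← Subgroup.relIndex_eq_one]
    by_contra h5
    have h6 : (Subgroup.map C.pr (stabilizer C.P x ⊓ H)).relIndex N ≠ 0 := by
      intro h0
      rw [h0, zero_mul] at h2
      exact h4 h2.symm
    have h7 : 2 ≤ (Subgroup.map C.pr (stabilizer C.P x ⊓ H)).relIndex N := by omega
    have h8 : 2 * N.index ≤ (Subgroup.map C.pr (stabilizer C.P x ⊓ H)).index := by
      rw [← h2]
      exact Nat.mul_le_mul_right _ h7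
    have h9 : 0 < N.index := Nat.pos_of_ne_zero hN0
    omega
  have hNc : IsClosed (N : Set G) := by
    have h1 : IsClosed (H₁ : Set C.P) := Subgroup.isClosed_of_isOpen H₁ hH₁.1
    have h2 : IsCompact ((stabilizer C.P x ⊓ H₁ : Subgroup C.P) : Set C.P) :=
      ((hC.closed x).inter h1).isCompact
    have h3 := (h2.image hC.continuous).isClosed
    simpa [hN] using h3
  have : N.FiniteIndex := ⟨hN0⟩
  refine ⟨N, Subgroup.isOpen_of_isClosed_of_finiteIndex N hNc, fun g hg => ?_⟩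
  let Z : {H : Subgroup C.P // IsNbhd C σ H} → Set C.P :=
    fun H => {p | p ∈ stabilizer C.P x ∧ p ∈ H.1 ∧ C.pr p = g}
  have hcl : ∀ i, IsClosed (Z i) := by
    intro i
    have h1 : IsClosed (i.1 : Set C.P) := Subgroup.isClosed_of_isOpen i.1 i.2.1
    have h2 : IsClosed {p : C.P | C.pr p = g} := isClosed_singleton.preimage hC.continuous
    exact (hC.closed x).inter (h1.inter h2)
  have hdir : Directed (· ⊇ ·) Z := by
    intro i j
    refine ⟨⟨i.1 ⊓ j.1, nbhd_inf hC i.2 j.2⟩, fun p hp => ?_, fun p hp => ?_⟩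
    · exact ⟨hp.1, hp.2.1.1, hp.2.2⟩
    · exact ⟨hp.1, hp.2.1.2, hp.2.2⟩
  have hne : ∀ i, (Z i).Nonempty := by
    intro i
    have h1 := hNH (i.1 ⊓ H₁) (nbhd_inf hC i.2 hH₁) inf_le_right hg
    obtain ⟨p, hp, hpg⟩ := h1
    exact ⟨p, hp.1, hp.2.1, hpg⟩
  have : Nonempty {H : Subgroup C.P // IsNbhd C σ H} := ⟨⟨⊤, htop⟩⟩
  obtain ⟨p, hp⟩ := IsCompact.nonempty_iInter_of_directed_nonempty_isCompact_isClosed Z hdir
    hne (fun i => (hcl i).isCompact) hcl
  have hp' : ∀ H, IsNbhd C σ H → p ∈ stabilizer C.P x ∧ p ∈ H ∧ C.pr p = g :=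
    fun H hH => Set.mem_iInter.1 hp ⟨H, hH⟩
  obtain ⟨g', hg'⟩ := mem_range hC fun H hH => (hp' H hH).2.1
  have h1 : g' = g := by
    rw [← σ.right g', hg']
    exact (hp' ⊤ htop).2.2
  rw [← h1, hg']
  exact (hp' ⊤ htop).1

omit [CompactSpace G] [T2Space G] hC in
/-- descent -/
theorem descent (hs : Separated C) {σ : Sec C} {x : C.X} {N : Subgroup G}
    (hN : IsOpen (N : Set G)) (h : ∀ g ∈ N, σ.s g ∈ stabilizer C.P x) :
    ∀ g, σ.s g ∈ stabilizer C.P x := by
  intro a
  have hM : IsOpen ((N ⊓ N.comap (MulAut.conj a⁻¹).toMonoidHom : Subgroup G) : Set G) := by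
    refine hN.inter ?_
    have hc : Continuous fun g : G => (MulAut.conj a⁻¹) g := by
      simp only [MulAut.conj_apply]
      fun_prop
    exact hN.preimage hc
  have key := hs σ x (σ.s a • x) _ hM (by
    intro g hg
    refine ⟨h g hg.1, ?_⟩
    have h1 : a⁻¹ * g * a ∈ N := by
      have := hg.2
      simpa using this
    have h2 := h _ h1
    rw [mem_stabilizer_iff] at h2 ⊢
    rw [map_mul, map_mul, map_inv] at h2
    rw [smul_smul]
    have h3 : σ.s g * σ.s a = σ.s a * ((σ.s a)⁻¹ * σ.s g * σ.s a) := by simp [mul_assoc]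
    rw [h3, mul_smul, h2])
  rw [mem_stabilizer_iff]
  exact key.symm

theorem criterion (hs : Separated C) (hf : FewPoints C) (σ : Sec C) :
    FromPoint C σ ↔ ∃ d, Bounded C σ d := by
  constructor
  · rintro ⟨x, hx⟩
    refine ⟨1, fun H hH => ⟨x, ?_⟩⟩
    have : Subgroup.map C.pr (stabilizer C.P x ⊓ H) = ⊤ := by
      rw [eq_top_iff]
      intro g _
      exact ⟨σ.s g, ⟨hx g, hH.2 g⟩, σ.right g⟩
    rw [deg, this, Subgroup.index_top]
  · rintro ⟨d, hd⟩
    obtain ⟨x, hx⟩ := exists_point hC hd hf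
    obtain ⟨N, hN, h⟩ := open_part hC hx
    exact ⟨x, descent hs hN h⟩

end

omit [TopologicalSpace G] [IsTopologicalGroup G] [CompactSpace G] [T2Space G] in
theorem deg_cover (C : Curve G) (H : Subgroup C.P) (x : C.X) :
    deg (cover C H) ⊤ x = deg C H x := by
  have : Subgroup.map (cover C H).pr (stabilizer (cover C H).P (α := (cover C H).X) x ⊓ ⊤) =
      Subgroup.map C.pr (stabilizer C.P x ⊓ H) := by
    ext g
    constructor
    · rintro ⟨p, hp, rfl⟩
      exact ⟨p.1, ⟨hp.1, p.2⟩, rfl⟩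
    · rintro ⟨p, hp, rfl⟩
      exact ⟨⟨p, hp.2⟩, ⟨hp.1, trivial⟩, rfl⟩
  exact congrArg Subgroup.index this

omit [IsTopologicalGroup G] [CompactSpace G] [T2Space G] in
theorem sec_cover (C : Curve G) {σ : Sec C} {H : Subgroup C.P} (hH : IsNbhd C σ H) :
    Nonempty (Sec (cover C H)) :=
  ⟨{ s := σ.s.codRestrict H hH.2
     cont := Continuous.subtype_mk σ.cont _
     right := σ.right }⟩

theorem main_class {K K' : Curve G → Prop} (hK : IsHyperbolicClass K) (hK' : IsCofinal K K')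
    (d : ℕ) (hd : 1 ≤ d) :
    (∀ C, K C → ∀ σ : Sec C, FromPoint C σ) ↔
      ∀ C, K' C → Nonempty (Sec C) → HasPoint C d := by
  constructor
  · rintro h C hC ⟨σ⟩
    obtain ⟨x, hx⟩ := h C (hK'.1 C hC) σ
    refine ⟨x, ?_⟩
    have : Subgroup.map C.pr (stabilizer C.P x ⊓ ⊤) = ⊤ := by
      rw [eq_top_iff]
      intro g _
      exact ⟨σ.s g, ⟨hx g, trivial⟩, σ.right g⟩
    rw [deg, this, Subgroup.index_top]
    exact hd
  · intro h C hC σ
    have hc := hK.isCurve C hC
    refine (criterion hc (hK.separated C hC) (hK.few C hC) σ).2 ⟨d, fun H hH => ?_⟩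
    obtain ⟨H', hle, hH', hKH⟩ := hK'.2 C hC σ H hH
    obtain ⟨x, hx⟩ := h _ hKH (sec_cover C hH')
    have hx' : deg C H' x ≤ d := by
      rw [← deg_cover C H' x]
      exact hx
    exact ⟨x, (deg_mono hc hH'.1 hle x).trans hx'⟩

end Pool.Agent.Q187.SC
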