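import Mathlib

/-! Sections of fundamental groups of curves and closed points of bounded degree: definitions. -/

namespace Pool.Agent.Q187.SC

universe u

/-- A smooth curve `U` over a field with absolute Galois group `G`: the fundamental group `P` of
`U` with its map to `G`, and the set `X` of closed points of the universal pro-covering of `U`
together with its cusps (the normalization of the smooth compactification of `U`), on which `P`
acts. -/
structure Curve (G : Type u) [Group G] where
  P : Type u
  [grp : Group P]
  [top : TopologicalSpace P]
  pr : P →* G
  X : Type u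
  [act : MulAction P X]

attribute [instance] Curve.grp Curve.top Curve.act

variable {G : Type u} [Group G] [TopologicalSpace G]

/-- Standard properties: `P` is profinite, `P → G` is continuous and onto, the decomposition
groups are closed, and closed points have finite degree. -/
structure IsCurve (C : Curve G) : Prop where
  topGroup : IsTopologicalGroup C.P
  compact : CompactSpace C.P
  hausdorff : T2Space C.P
  disconnected : TotallyDisconnectedSpace C.P
  continuous : Continuous C.pr
  surjective : Function.Surjective C.pr
  closed : ∀ x : C.X, IsClosed (MulAction.stabilizer C.P x : Set C.P)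
  residue : ∀ x : C.X, (Subgroup.map C.pr (MulAction.stabilizer C.P x)).FiniteIndex

/-- a section of `P → G` -/
structure Sec (C : Curve G) where
  s : G →* C.P
  cont : Continuous s
  right : ∀ g, C.pr (s g) = g

/-- `σ` is the section of a rational point, or a cuspidal section: its image lies in the
decomposition group of a point or of a cusp. -/
def FromPoint (C : Curve G) (σ : Sec C) : Prop :=
  ∃ x : C.X, ∀ g, σ.s g ∈ MulAction.stabilizer C.P x

/-- The degree of the closed point below `x` on the compactification of the covering `U_H` of `U`
given by the subgroup `H`. -/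
noncomputable def deg (C : Curve G) (H : Subgroup C.P) (x : C.X) : ℕ :=
  (Subgroup.map C.pr (MulAction.stabilizer C.P x ⊓ H)).index

/-- `U_H` is a neighbourhood of the section `σ`. -/
def IsNbhd (C : Curve G) (σ : Sec C) (H : Subgroup C.P) : Prop :=
  IsOpen (H : Set C.P) ∧ ∀ g, σ.s g ∈ H

/-- the covering `U_H` of `U` as a curve -/
def cover (C : Curve G) (H : Subgroup C.P) : Curve G where
  P := H
  pr := C.pr.comp H.subtype
  X := C.X

/-- `U` has a closed point (or cusp) of degree at most `d`. -/
def HasPoint (C : Curve G) (d : ℕ) : Prop := ∃ x : C.X, deg C ⊤ x ≤ d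

/-- All neighbourhoods of `σ` have closed points (or cusps) of degree at most `d`. -/
def Bounded (C : Curve G) (σ : Sec C) (d : ℕ) : Prop :=
  ∀ H, IsNbhd C σ H → ∃ x : C.X, deg C H x ≤ d

/-- Injectivity of the map from points to sections, over all finite extensions (known). -/
def Separated (C : Curve G) : Prop :=
  ∀ (σ : Sec C) (x y : C.X) (N : Subgroup G), IsOpen (N : Set G) →
    (∀ g ∈ N, σ.s g ∈ MulAction.stabilizer C.P x ∧ σ.s g ∈ MulAction.stabilizer C.P y) → x = y

/-- Every section has, for every `d`, a neighbourhood with only finitely many closed points of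
degree at most `d` (known: coverings of large gonality; Faltings, Frey). -/
def FewPoints (C : Curve G) : Prop :=
  ∀ (σ : Sec C) (d : ℕ), ∃ H, IsNbhd C σ H ∧
    {O : Set C.X | ∃ x, O = MulAction.orbit H x ∧ deg C H x ≤ d}.Finite

/-- The hyperbolic curves over a number field, with the known facts. -/
structure IsHyperbolicClass (K : Curve G → Prop) : Prop where
  isCurve : ∀ C, K C → IsCurve C
  cover : ∀ C, K C → ∀ H : Subgroup C.P, IsOpen (H : Set C.P) → Subgroup.map C.pr H = ⊤ →
    K (cover C H)
  separated : ∀ C, K C → Separated C
  few : ∀ C, K C → FewPoints C

/-- A subclass which contains arbitrarily small neighbourhoods of all sections (for instance the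
curves of genus at least `N`). -/
def IsCofinal (K K' : Curve G → Prop) : Prop :=
  (∀ C, K' C → K C) ∧
    ∀ C, K C → ∀ (σ : Sec C) (H : Subgroup C.P), IsNbhd C σ H →
      ∃ H' : Subgroup C.P, H' ≤ H ∧ IsNbhd C σ H' ∧ K' (cover C H')

end Pool.Agent.Q187.SC
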